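import Pool.Agent.Helper57_C2.Stmts
import Pool.Agent.Helper35_K9.CHQ
import Pool.Agent.Helper56_K9.EXP

/-!
# Squad C2, row REC: the chains by the smallest nontrivial member
-/

open scoped BigOperators

set_option linter.unusedSectionVars false

noncomputable section

namespace Pool.Agent.PP.C2.H56

open Pool.Agent.Helper51_AWC Pool.Agent.Helper79_WRA Pool.Agent.PP Pool.Agent.PP.KF
open Pool.Agent.PP.K9 Pool.Agent.PP.K9.H35 Pool.Agent.PP.K9.H56

attribute [local instance] Ideal.Quotient.field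

section chains

variable {G : Type} [Group G] [Finite G] {ℓ : ℕ}

/-- `Q` is the smallest nontrivial member of `d` -/
def MM (Q : Subgroup G) (d : Finset (Subgroup G)) : Prop :=
  Q ∈ d ∧ Q ≠ ⊥ ∧ ∀ D ∈ d, D ≠ ⊥ → Q ≤ D

theorem MM.unique {Q Q' : Subgroup G} {d : Finset (Subgroup G)} (h : MM Q d) (h' : MM Q' d) :
    Q = Q' := le_antisymm (h.2.2 _ h'.1 h'.2.1) (h'.2.2 _ h.1 h.2.1)

open Classical in
theorem MM.ex {d : Finset (Subgroup G)} (h : CH ℓ d) (hd : d ≠ {⊥}) : ∃ Q, MM Q d := by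
  have hne : (d.erase ⊥).Nonempty := by
    by_contra h0
    rw [Finset.not_nonempty_iff_eq_empty] at h0
    apply hd
    rw [← Finset.insert_erase h.bot, h0]
    rfl
  obtain ⟨Q, hQ, hm⟩ := Finset.exists_min_image (d.erase ⊥) (fun D => Nat.card D) hne
  have hQ1 := Finset.mem_erase.1 hQ
  refine ⟨Q, hQ1.2, hQ1.1, ?_⟩
  intro D hD hD1
  rcases chain_total h.ch hQ1.2 hD with h1 | h1
  · exact h1
  · exact (Subgroup.eq_of_le_of_card_ge h1 (hm D (Finset.mem_erase.2 ⟨hD1, hD⟩))).symm.le

end chains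

section fib

variable {F : Type} [Field F] {G A : Type} [Group G] [Finite G] [Group A] [Finite A] {ℓ : ℕ}

theorem up_mono {N : Subgroup G} (p : N →* A) {D D' : Subgroup A} (h : D ≤ D') :
    up p D ≤ up p D' := Subgroup.map_mono (Subgroup.comap_mono h)

/-- the image in the quotient -/
def dn {N : Subgroup G} (p : N →* A) (W : Subgroup G) : Subgroup A := (W.subgroupOf N).map p

theorem dn_mono {N : Subgroup G} (p : N →* A) {D D' : Subgroup G} (h : D ≤ D') :
    dn p D ≤ dn p D' := Subgroup.map_mono (Subgroup.comap_mono h)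

theorem dn_up {N : Subgroup G} {p : N →* A} (hp : Function.Surjective p) (D : Subgroup A) :
    dn p (up p D) = D := by
  rw [dn, up_subgroupOf, Subgroup.map_comap_eq_self_of_surjective hp]

variable {Q : Subgroup G} {p : Subgroup.normalizer (Q : Set G) →* A}

theorem up_dn (hk : p.ker = Q.subgroupOf (Subgroup.normalizer (Q : Set G))) {W : Subgroup G}
    (h : Q ≤ W) (hn : W ≤ Subgroup.normalizer (Q : Set G)) : up p (dn p W) = W := by
  rw [up, dn, Subgroup.comap_map_eq_self, Subgroup.subgroupOf_map_subtype, inf_eq_left.2 hn]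
  rw [hk]
  exact Subgroup.comap_mono h

theorem up_bot (hk : p.ker = Q.subgroupOf (Subgroup.normalizer (Q : Set G))) : up p ⊥ = Q := by
  rw [up, MonoidHom.comap_bot, hk, Subgroup.subgroupOf_map_subtype,
    inf_eq_left.2 Subgroup.le_normalizer]

theorem dn_bot (hk : p.ker = Q.subgroupOf (Subgroup.normalizer (Q : Set G))) : dn p Q = ⊥ := by
  rw [dn, ← hk, Subgroup.map_eq_bot_iff]

open Classical in
theorem stab_up (hp : Function.Surjective p)
    (hk : p.ker = Q.subgroupOf (Subgroup.normalizer (Q : Set G))) {d : Finset (Subgroup A)}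
    (hd : ⊥ ∈ d) : stab (insert ⊥ (d.image (up p))) = up p (stab d) := by
  ext x
  rw [H94.mem_stab', mem_up]
  constructor
  · intro h
    have hx : x ∈ Subgroup.normalizer (Q : Set G) := by
      have := h (up p ⊥) (Finset.mem_insert_of_mem (Finset.mem_image_of_mem _ hd))
      rwa [up_bot hk] at this
    refine ⟨hx, ?_⟩
    rw [H94.mem_stab']
    intro D hD
    have h1 : x ∈ up p (Subgroup.normalizer (D : Set A)) := by
      rw [up_norm hp]
      exact ⟨hx, h _ (Finset.mem_insert_of_mem (Finset.mem_image_of_mem _ hD))⟩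
    exact (mem_up.1 h1).2
  · rintro ⟨hx, h⟩ D hD
    rcases Finset.mem_insert.1 hD with rfl | hD
    · rw [norm_bot]
      exact Subgroup.mem_top x
    · obtain ⟨D, hD0, rfl⟩ := Finset.mem_image.1 hD
      have h1 : x ∈ up p (Subgroup.normalizer (D : Set A)) :=
        mem_up.2 ⟨hx, H94.mem_stab'.1 h D hD0⟩
      rw [up_norm hp] at h1
      exact h1.2

open Classical in
/-- the chains with the smallest nontrivial member `Q` -/
theorem fib (hF : GoodF ℓ F) (hQ : IsPGroup ℓ Q) (hQ1 : Q ≠ ⊥) (hp : Function.Surjective p)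
    (hk : p.ker = Q.subgroupOf (Subgroup.normalizer (Q : Set G))) {e : G → F} (he : IsIdem e) :
    ∑ d ∈ ((chainsOn (psubIn ℓ (⊤ : Subgroup G)) ⊥).filter NormalChain).filter (MM Q),
      (-1 : ℤ) ^ (d.card + 1) * ((Nat.card (stab d) : ℤ) * (lnum (stab d) e : ℤ)) =
    -((Nat.card Q : ℤ) *
      YY ℓ ⊤ (PP.H75.push p (fun t : Subgroup.normalizer (Q : Set G) => br Q e t))) := by
  have hℓ : Fact ℓ.Prime := ⟨hF.prime⟩
  have hkc : Nat.card p.ker = Nat.card Q := by
    rw [hk]
    exact Nat.card_congr (Subgroup.subgroupOfEquivOfLe Subgroup.le_normalizer).toEquiv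
  have hkp : IsPGroup ℓ p.ker := by
    rw [hk]
    exact hQ.comap_subtype
  obtain ⟨f', hf'⟩ : ∃ f' : A → F,
      f' = PP.H75.push p (fun t : Subgroup.normalizer (Q : Set G) => br Q e t) := ⟨_, rfl⟩
  have hYY : YY ℓ ⊤ f' = ∑ d ∈ (chainsOn (psubIn ℓ (⊤ : Subgroup A)) ⊥).filter NormalChain,
      (-1 : ℤ) ^ (d.card + 1) * ((Nat.card (stab d) : ℤ) * (lnum (stab d) f' : ℤ)) :=
    H94.nch ℓ A ⊤ (fun X _ => (Nat.card X : ℤ) * (lnum X f' : ℤ))
  rw [← hf', hYY, Finset.mul_sum, ← Finset.sum_neg_distrib]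
  have hQup : ∀ D : Subgroup A, Q ≤ up p D := by
    intro D
    conv_lhs => rw [← up_bot hk]
    exact up_mono p bot_le
  have hupne : ∀ D : Subgroup A, up p D ≠ ⊥ := by
    intro D h
    apply hQ1
    rw [eq_bot_iff, ← h]
    exact hQup D
  have hnot : ∀ d : Finset (Subgroup A), (⊥ : Subgroup G) ∉ d.image (up p) := by
    intro d h
    obtain ⟨D, _, hD⟩ := Finset.mem_image.1 h
    exact hupne D hD
  have hupinj : Function.Injective (up p) := fun D D' h => by
    rw [← dn_up hp D, h, dn_up hp]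
  symm
  refine Finset.sum_nbij' (fun d => insert ⊥ (d.image (up p)))
    (fun d => (d.erase ⊥).image (dn p)) ?_ ?_ ?_ ?_ ?_
  · intro d hd
    have h := mem_iff.1 hd
    have htop : top (insert ⊥ (d.image (up p))) = up p (top d) := by
      refine top_of (Finset.mem_insert_of_mem (Finset.mem_image_of_mem _ h.top.1)) ?_
      intro D hD
      rcases Finset.mem_insert.1 hD with rfl | hD
      · exact bot_le
      · obtain ⟨D, hD0, rfl⟩ := Finset.mem_image.1 hD
        exact up_mono p (h.top.2 D hD0)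
    refine Finset.mem_filter.2 ⟨mem_iff.2 ⟨?_, Finset.mem_insert_self _ _, ?_, ?_⟩, ?_, hQ1, ?_⟩
    · intro D hD
      rcases Finset.mem_insert.1 hD with rfl | hD
      · exact IsPGroup.of_bot
      · obtain ⟨D, hD0, rfl⟩ := Finset.mem_image.1 hD
        exact ((PP.H75.isPGroup_comap_iff hp hkp D).2 (h.pg D hD0)).map _
    · rw [Finset.coe_insert, Finset.coe_image]
      refine IsChain.insert ?_ ?_
      · rintro _ ⟨D, hD, rfl⟩ _ ⟨D', hD', rfl⟩ _
        rcases chain_total h.ch hD hD' with h1 | h1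
        · exact Or.inl (up_mono p h1)
        · exact Or.inr (up_mono p h1)
      · intro D _ _
        exact Or.inl bot_le
    · intro D hD
      rw [htop]
      rcases Finset.mem_insert.1 hD with rfl | hD
      · rw [norm_bot]
        exact le_top
      · obtain ⟨D, hD0, rfl⟩ := Finset.mem_image.1 hD
        have h1 := up_mono p (h.nc D hD0)
        rw [up_norm hp] at h1
        exact h1.trans inf_le_right
    · refine Finset.mem_insert_of_mem (Finset.mem_image.2 ⟨⊥, h.bot, up_bot hk⟩)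
    · intro D hD hD1
      rcases Finset.mem_insert.1 hD with rfl | hD
      · exact absurd rfl hD1
      · obtain ⟨D, hD0, rfl⟩ := Finset.mem_image.1 hD
        exact hQup D
  · intro d hd
    obtain ⟨hd1, hm1, hm2, hm3⟩ := Finset.mem_filter.1 hd
    have h := mem_iff.1 hd1
    have hnQ : top d ≤ Subgroup.normalizer (Q : Set G) := h.nc Q hm1
    have hQt : Q ≤ top d := h.top.2 Q hm1
    have htne : top d ≠ ⊥ := by
      intro h0
      rw [h0, le_bot_iff] at hQt
      exact hQ1 hQt
    have htop : top ((d.erase ⊥).image (dn p)) = dn p (top d) := by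
      refine top_of (Finset.mem_image_of_mem _ (Finset.mem_erase.2 ⟨htne, h.top.1⟩)) ?_
      intro D hD
      obtain ⟨D, hD0, rfl⟩ := Finset.mem_image.1 hD
      exact dn_mono p (h.top.2 D (Finset.mem_of_mem_erase hD0))
    refine mem_iff.2 ⟨?_, ?_, ?_, ?_⟩
    · intro D hD
      obtain ⟨D, hD0, rfl⟩ := Finset.mem_image.1 hD
      exact ((h.pg D (Finset.mem_of_mem_erase hD0)).comap_subtype).map _
    · exact Finset.mem_image.2 ⟨Q, Finset.mem_erase.2 ⟨hQ1, hm1⟩, dn_bot hk⟩
    · rw [Finset.coe_image]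
      rintro _ ⟨D, hD, rfl⟩ _ ⟨D', hD', rfl⟩ _
      rcases chain_total h.ch (Finset.mem_of_mem_erase hD) (Finset.mem_of_mem_erase hD') with h1 | h1
      · exact Or.inl (dn_mono p h1)
      · exact Or.inr (dn_mono p h1)
    · intro D hD
      rw [htop]
      obtain ⟨D, hD0, rfl⟩ := Finset.mem_image.1 hD
      obtain ⟨hD1, hDd⟩ := Finset.mem_erase.1 hD0
      have hQD : Q ≤ D := hm3 D hDd hD1
      have hDn : D ≤ Subgroup.normalizer (Q : Set G) := (h.top.2 D hDd).trans hnQ
      have e1 : up p (dn p D) = D := up_dn hk hQD hDn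
      rintro _ ⟨x, hx, rfl⟩
      have h1 : (x : G) ∈ up p (Subgroup.normalizer (dn p D : Set A)) := by
        rw [up_norm hp, e1]
        exact ⟨x.2, h.nc D hDd hx⟩
      exact (mem_up.1 h1).2
  · intro d hd
    change ((insert ⊥ (d.image (up p))).erase ⊥).image (dn p) = d
    rw [Finset.erase_insert (hnot d), Finset.image_image]
    have e1 : dn p ∘ up p = id := funext fun D => dn_up hp D
    rw [e1, Finset.image_id]
  · intro d hd
    obtain ⟨hd1, hm1, hm2, hm3⟩ := Finset.mem_filter.1 hd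
    have h := mem_iff.1 hd1
    have hnQ : top d ≤ Subgroup.normalizer (Q : Set G) := h.nc Q hm1
    change insert ⊥ (((d.erase ⊥).image (dn p)).image (up p)) = d
    rw [Finset.image_image]
    have e1 : (d.erase ⊥).image (up p ∘ dn p) = (d.erase ⊥).image id := by
      refine Finset.image_congr ?_
      intro D hD
      obtain ⟨hD1, hDd⟩ := Finset.mem_erase.1 hD
      exact up_dn hk (hm3 D hDd hD1) ((h.top.2 D hDd).trans hnQ)
    rw [e1, Finset.image_id, Finset.insert_erase h.bot]
  · intro d hd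
    have h := mem_iff.1 hd
    have hst := stab_up hp hk h.bot
    have h1 : Q ≤ up p (stab d) := hQup _
    have h2 : up p (stab d) ≤ Subgroup.normalizer (Q : Set G) := up_le p _
    rw [hst, card_up hp, hkc, (K9.H75.lbr ℓ F hF G e he Q (up p (stab d)) hQ h1 h2).1,
      lnum_up hF hp hkp, ← hf', Finset.card_insert_of_notMem (hnot d),
      Finset.card_image_of_injective _ hupinj]
    push_cast
    ring

end fib

theorem rec_ : RecStmt := by
  classical
  intro ℓ _ F _ hF G _ _ e he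
  have hfin : Fintype (Subgroup G) := Fintype.ofFinite _
  obtain ⟨f, hf⟩ : ∃ f : Finset (Subgroup G) → ℤ, f = fun d => (-1 : ℤ) ^ (d.card + 1) *
    ((Nat.card (stab d) : ℤ) * (lnum (stab d) e : ℤ)) := ⟨_, rfl⟩
  obtain ⟨S, hS⟩ : ∃ S : Finset (Finset (Subgroup G)),
      S = (chainsOn (psubIn ℓ (⊤ : Subgroup G)) ⊥).filter NormalChain := ⟨_, rfl⟩
  have hmem : ∀ d, d ∈ S ↔ CH ℓ d := fun d => by rw [hS]; exact mem_iff
  have hYY : YY ℓ ⊤ e = ∑ d ∈ S, f d := by
    rw [hS, hf]
    exact H94.nch ℓ G ⊤ (fun X _ => (Nat.card X : ℤ) * (lnum X e : ℤ))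
  have v0 : f {⊥} = (Nat.card G : ℤ) * lnum (⊤ : Subgroup G) e := by
    rw [hf]
    simp only [stab_bot, Finset.card_singleton]
    rw [Nat.card_congr (Subgroup.topEquiv (G := G)).toEquiv]
    norm_num
  have hbot : ({⊥} : Finset (Subgroup G)) ∈ S := (hmem _).2 ch_bot
  let m : Finset (Subgroup G) → Subgroup G := fun d => if h : ∃ Q, MM Q d then h.choose else ⊥
  have hm : ∀ d ∈ S.erase {⊥}, MM (m d) d := by
    intro d hd
    obtain ⟨h1, h2⟩ := Finset.mem_erase.1 hd
    have h3 := MM.ex ((hmem d).1 h2) h1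
    simp only [m]
    rw [dif_pos h3]
    exact h3.choose_spec
  have hmp : ∀ d ∈ S.erase {⊥}, m d ∈ Finset.univ.filter
      (fun Q : Subgroup G => IsPGroup ℓ Q ∧ Q ≠ ⊥) := by
    intro d hd
    have h1 := hm d hd
    exact Finset.mem_filter.2 ⟨Finset.mem_univ _,
      ((hmem d).1 (Finset.mem_of_mem_erase hd)).pg _ h1.1, h1.2.1⟩
  rw [hYY, ← Finset.add_sum_erase S f hbot, v0, ← Finset.sum_fiberwise_of_maps_to hmp,
    finsum_eq_sum_of_fintype]
  simp only [finsum_eq_if]
  rw [← Finset.sum_filter, sub_eq_add_neg, ← Finset.sum_neg_distrib]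
  congr 1
  refine Finset.sum_congr rfl fun Q hQ => ?_
  obtain ⟨-, hQp, hQ1⟩ := Finset.mem_filter.1 hQ
  have hk : (QuotientGroup.mk' (Q.subgroupOf (Subgroup.normalizer (Q : Set G)))).ker =
      Q.subgroupOf (Subgroup.normalizer (Q : Set G)) := QuotientGroup.ker_mk' _
  have h1 := fib hF hQp hQ1 (QuotientGroup.mk'_surjective _) hk he
  rw [yq, ← h1, ← hS]
  have h2 : (S.erase {⊥}).filter (fun d => m d = Q) = S.filter (MM Q) := by
    ext d
    rw [Finset.mem_filter, Finset.mem_filter, Finset.mem_erase]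
    constructor
    · rintro ⟨⟨h2, h3⟩, h4⟩
      refine ⟨h3, ?_⟩
      have := hm d (Finset.mem_erase.2 ⟨h2, h3⟩)
      rwa [h4] at this
    · rintro ⟨h3, h4⟩
      have h5 : d ≠ {⊥} := by
        rintro rfl
        exact h4.2.1 (Finset.mem_singleton.1 h4.1)
      exact ⟨⟨h5, h3⟩, (hm d (Finset.mem_erase.2 ⟨h5, h3⟩)).unique h4⟩
  rw [h2]
  refine Finset.sum_congr rfl fun d _ => ?_
  rw [hf]

end Pool.Agent.PP.C2.H56
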