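import Pool.Agent.Helper57_C2.Stmts
import Pool.Agent.Helper35_K9.CHV
import Pool.Agent.Helper9_PP.Add
import Pool.Agent.Helper67_PP.S1n
import Pool.Agent.Helper66_K9.Asm

/-!
# Squad C2, row CHS: `ChqStmt` for idempotents whose blocks have defect groups of order `ℓ ^ 2`
-/

open scoped BigOperators

set_option linter.unusedSectionVars false

noncomputable section

namespace Pool.Agent.PP.C2.H56

open Pool.Agent.Helper51_AWC Pool.Agent.Helper79_WRA Pool.Agent.PP Pool.Agent.PP.KF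
open Pool.Agent.PP.K9

attribute [local instance] Ideal.Quotient.field

theorem chs_blk (hexp : ExpStmt) (hchq : ChqStmt) (ℓ : ℕ) [hℓ : Fact ℓ.Prime]
    (M : Ideal (integralClosure ℤ ℂ)) [M.IsMaximal] (hM : (ℓ : integralClosure ℤ ℂ) ∈ M)
    (G : Type) [Group G] [Finite G] (e : G → FF M) (he : IsBlk e) (V : Subgroup G)
    (hV : Tp ℓ e V) (hVc : Nat.card V = ℓ ^ 2) :
    YY ℓ ⊤ e = (Nat.card G : ℤ) * lnum (⊤ : Subgroup G) e -
    ∑ᶠ (V : Subgroup G) (_ : Nat.card V = ℓ ^ 2),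
      (Nat.card (Subgroup.normalizer (V : Set G)) : ℤ) *
        lnum (Subgroup.normalizer (V : Set G)) e := by
  have hF : GoodF ℓ (FF M) := H50.fld ℓ hℓ.out M hM
  have hmx : ∀ Q : Subgroup G, IsPGroup ℓ Q → Gd e Q → Nat.card Q ≤ ℓ ^ 2 :=
    fun Q h1 h2 => hVc ▸ hV.mx Q h1 h2
  rw [hexp ℓ (FF M) hF G e he.1 hmx]
  have hQ : ∑ᶠ (Q : Subgroup G) (_ : Nat.card Q = ℓ),
        (Nat.card (Subgroup.normalizer (Q : Set G)) : ℤ) *
          lnum (Subgroup.normalizer (Q : Set G)) e =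
      ∑ᶠ (Q : Subgroup G) (_ : Nat.card Q = ℓ), ∑ᶠ (V : Subgroup G)
        (_ : Nat.card V = ℓ ^ 2 ∧ Q ≤ V),
        (Nat.card (Subgroup.normalizer (Q : Set G) ⊓ Subgroup.normalizer (V : Set G) :
          Subgroup G) : ℤ) *
          lnum (Subgroup.normalizer (Q : Set G) ⊓ Subgroup.normalizer (V : Set G)) e := by
    refine finsum_congr fun Q => finsum_congr fun hQ => ?_
    exact hchq ℓ M hM G e he V hV hVc Q hQ
  rw [← hQ]
  ring

theorem chs : ChsStmt := by
  classical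
  intro ℓ hℓ M _ hM A _ _ f hf
  have hF : GoodF ℓ (FF M) := H50.fld ℓ hℓ.out M hM
  have hfin : Fintype (Subgroup A) := Fintype.ofFinite _
  refine H46.idem_induction (fun f : A → FF M =>
    (∀ c : A → FF M, IsBlk c → mulF f c = c → ∃ V : Subgroup A, Tp ℓ c V ∧ Nat.card V = ℓ ^ 2) →
    YY ℓ ⊤ f = (Nat.card A : ℤ) * lnum (⊤ : Subgroup A) f -
    ∑ᶠ (V : Subgroup A) (_ : Nat.card V = ℓ ^ 2),
      (Nat.card (Subgroup.normalizer (V : Set A)) : ℤ) *
        lnum (Subgroup.normalizer (V : Set A)) f) ?_ ?_ ?_ f hf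
  · intro _
    rw [H67.YY_zero hF, H67.lnum_zero hF]
    have h : ∑ᶠ (V : Subgroup A) (_ : Nat.card V = ℓ ^ 2),
        (Nat.card (Subgroup.normalizer (V : Set A)) : ℤ) *
          lnum (Subgroup.normalizer (V : Set A)) (0 : A → FF M) = 0 := by
      refine K9.H35.fz fun V => K9.H35.fz fun _ => ?_
      rw [H67.lnum_zero hF, Nat.cast_zero, mul_zero]
    rw [h, Nat.cast_zero, mul_zero, sub_zero]
  · intro b hb h
    obtain ⟨V, hV, hVc⟩ := h b hb hb.1.2
    exact chs_blk K9.H56.exp K9.chq_ ℓ M hM A b hb V hV hVc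
  · intro e₁ e₂ h1 h2 h12 p1 p2 h
    have h21 : mulF e₂ e₁ = 0 := by rw [← H46.mulF_comm h1.1, h12]
    have hd : ∀ f : A → FF M, mulF (e₁ + e₂) f = mulF e₁ f + mulF e₂ f := fun f => H20.add_mulF _ _ _
    have q1 := p1 (by
      intro c hc hce
      apply h c hc
      have : mulF e₂ c = 0 := by rw [← hce, ← H20.mulF_assoc, h21, H20.zero_mulF]
      rw [hd, hce, this, add_zero])
    have q2 := p2 (by
      intro c hc hce
      apply h c hc
      have : mulF e₁ c = 0 := by rw [← hce, ← H20.mulF_assoc, h12, H20.zero_mulF]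
      rw [hd, hce, this, zero_add])
    have hadd : ∀ R : Subgroup A, IsPGroup ℓ R →
        lnum (Subgroup.normalizer (R : Set A)) (e₁ + e₂) =
          lnum (Subgroup.normalizer (R : Set A)) e₁ + lnum (Subgroup.normalizer (R : Set A)) e₂ :=
      fun R hR => H9.lnum_add hF H20.nls H20.brm H20.eig H20.ibf hR Subgroup.le_normalizer
        (Subgroup.centralizer_le_normalizer _) le_rfl h1 h2 h12
    have ht := hadd ⊥ IsPGroup.of_bot
    rw [K9.H56.norm_bot] at ht
    rw [H9.YY_add hF PP.H94.nch H20.nls H20.brm H20.eig H20.ibf ⊤ h1 h2 h12, q1, q2, ht]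
    have hs : ∑ᶠ (V : Subgroup A) (_ : Nat.card V = ℓ ^ 2),
        (Nat.card (Subgroup.normalizer (V : Set A)) : ℤ) *
          lnum (Subgroup.normalizer (V : Set A)) (e₁ + e₂) =
        ∑ᶠ (V : Subgroup A) (_ : Nat.card V = ℓ ^ 2),
        (Nat.card (Subgroup.normalizer (V : Set A)) : ℤ) *
          lnum (Subgroup.normalizer (V : Set A)) e₁ +
        ∑ᶠ (V : Subgroup A) (_ : Nat.card V = ℓ ^ 2),
        (Nat.card (Subgroup.normalizer (V : Set A)) : ℤ) *
          lnum (Subgroup.normalizer (V : Set A)) e₂ := by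
      simp only [finsum_eq_sum_of_fintype, finsum_eq_if]
      rw [← Finset.sum_add_distrib]
      refine Finset.sum_congr rfl fun V _ => ?_
      by_cases hV : Nat.card V = ℓ ^ 2
      · rw [if_pos hV, if_pos hV, if_pos hV, hadd V (IsPGroup.of_card hV)]
        push_cast
        ring
      · rw [if_neg hV, if_neg hV, if_neg hV, add_zero]
    rw [hs]
    push_cast
    ring

end Pool.Agent.PP.C2.H56
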